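import Pool.Agent.H72.PRK.S2
import Pool.Agent.H32.PRL.FLP

/-!
# PRK, row MLGK: the group of the types of the classes, and the Selmer groups of the twists
-/

set_option autoImplicit false

namespace Pool.PRK

open Polynomial Matrix Pool.HYP Pool.TOW Pool.AVS Pool.T1 IsDedekindDomain

namespace Mlgk

theorem us_mul {R : Type} [CommRing R] {K : Type} [Field K] [Algebra R K] {P : Ideal R}
    {f : R[X]} {α β : K[X]} (h : US P f α) (h' : US P f β) : US P f (α * β) := by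
  obtain ⟨s, p, hs, hd, hc⟩ := h
  obtain ⟨s', p', hs', hd', hc'⟩ := h'
  refine ⟨s * s', p * p', hs.mul_left hs', ?_, ?_⟩
  · have e : α * β * (s * s') ^ 2 - fk K (p * p') =
        (α * s ^ 2 - fk K p) * (β * s' ^ 2) + fk K p * (β * s' ^ 2 - fk K p') := by
      simp only [fk, Polynomial.map_mul]; ring
    rw [e]
    exact dvd_add (hd.mul_right _) (hd'.mul_left _)
  · rw [md, Polynomial.map_mul]; exact hc.mul_left hc'

theorem us_one {R : Type} [CommRing R] {K : Type} [Field K] [Algebra R K] {P : Ideal R}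
    {f : R[X]} : US P f (1 : K[X]) := by
  refine ⟨1, 1, isCoprime_one_left, ?_, ?_⟩
  · simp
  · rw [md, Polynomial.map_one]; exact isCoprime_one_left

theorem nsq_mul {K : Type} [Field K] {f α β : K[X]} (h : NSq f α) (h' : NSq f β) :
    NSq f (α * β) := by
  unfold NSq at *
  rw [map_mul, map_mul]
  exact h.mul h'

theorem nsq_one {K : Type} [Field K] {f : K[X]} : NSq f (1 : K[X]) := by
  unfold NSq
  rw [map_one, map_one]
  exact IsSquare.one

theorem cop_of_unit {K : Type} [Field K] {f p : K[X]} (h : IsUnit (AdjoinRoot.mk f p)) :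
    IsCoprime p f := by
  obtain ⟨b, hb⟩ := h.exists_right_inv
  obtain ⟨q, rfl⟩ := AdjoinRoot.mk_surjective b
  rw [← map_mul, ← map_one (AdjoinRoot.mk f), AdjoinRoot.mk_eq_mk] at hb
  obtain ⟨r, hr⟩ := hb
  exact ⟨q, -r, by linear_combination hr⟩

section

variable {K : Type} [Field K] {f : K[X]}

theorem cls_sq (ξ : (AdjoinRoot f)ˣ ⧸ SqG f) : ξ * ξ = 1 := by
  obtain ⟨u, rfl⟩ := QuotientGroup.mk_surjective ξ
  rw [← QuotientGroup.mk_mul, QuotientGroup.eq_one_iff]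
  exact ⟨u, by simp [pow_two]⟩

theorem inv_eq_self (ξ : (AdjoinRoot f)ˣ ⧸ SqG f) : ξ⁻¹ = ξ :=
  inv_eq_of_mul_eq_one_left (cls_sq ξ)

/-- Two representatives of the same class. -/
theorem rep_rel {u u' : (AdjoinRoot f)ˣ} {α β : K[X]}
    (h : (QuotientGroup.mk u : (AdjoinRoot f)ˣ ⧸ SqG f) = QuotientGroup.mk u')
    (ha : AdjoinRoot.mk f α = (u : AdjoinRoot f)) (hb : AdjoinRoot.mk f β = (u' : AdjoinRoot f)) :
    ∃ s : K[X], IsCoprime s f ∧ f ∣ β - α * s ^ 2 := by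
  obtain ⟨v, hv⟩ := QuotientGroup.eq.mp h
  obtain ⟨s, hs⟩ := AdjoinRoot.mk_surjective (v : AdjoinRoot f)
  refine ⟨s, cop_of_unit (by rw [hs]; exact v.isUnit), ?_⟩
  rw [← AdjoinRoot.mk_eq_mk, map_mul, map_pow, ha, hb, hs]
  have h2 : u' = u * v ^ 2 := by
    have h3 : v ^ 2 = u⁻¹ * u' := hv
    rw [h3, mul_inv_cancel_left]
  rw [h2]
  push_cast
  rfl

end

theorem neg_ty (x : Ty) : -x = x := by revert x; decide
theorem add_ty (x : Ty) : x + x = 0 := by revert x; decide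

theorem card_le_of_sing {T : Type} [Fintype T] [DecidableEq T] (M : AddSubgroup (T → Ty))
    (hM : ∀ m ∈ M, PRL.qf m = 0) : Nat.card M ≤ 2 ^ Fintype.card T := by
  have h1 := Module.natCard_eq_pow_finrank (K := ZMod 2) (V := PRL.toSub M)
  rw [Nat.card_zmod] at h1
  have h2 : Nat.card (PRL.toSub M) = Nat.card M := rfl
  rw [← h2, h1]
  exact Nat.pow_le_pow_right (by norm_num)
    (PRX.finrank_le (M := PRL.toSub M) fun m hm => hM m hm)

end Mlgk

open Mlgk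

open Classical in
/-- MLGK. -/
theorem mlgk (hTAK : TAKStmt) (hSGK : SGKStmt) (hSELK : SELKStmt) : MLGKStmt := by
  intro R _ _ K _ _ _ O π hGR hOnly g Ram hg hRec hCg D h hOk hRam f hf ϖ hUni hPat
  have hfA : f.Monic ∧ f.natDegree = 2 * g + 1 := ⟨hf.1.1.1, hf.1.1.2.1⟩
  have hZ : ∀ P ∈ D.T, Zer P.asIdeal (f - (X - C (D.c P)) * D.γ P) := hf.1.2.2.1
  have hTA := fun (P : HeightOneSpectrum R) (hP : P ∈ D.T) =>
    hTAK R K O π hGR P (ϖ P) (hUni P hP).1 (hUni P hP).2 g (D.c P) (D.γ P) f hg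
      (hOk.2.1 P hP) hfA.1 hfA.2 (hZ P hP)
  set Q := ((AdjoinRoot (fk K f))ˣ ⧸ SqG (fk K f)) with hQ
  -- types of classes
  let TyX : Q → HeightOneSpectrum R → Ty → Prop := fun ξ P x =>
    ∃ (u : (AdjoinRoot (fk K f))ˣ) (α : K[X]), (QuotientGroup.mk u : Q) = ξ ∧
      AdjoinRoot.mk (fk K f) α = (u : AdjoinRoot (fk K f)) ∧ IsCoprime α (fk K f) ∧
      NSq (fk K f) α ∧ TyK P.asIdeal (ϖ P) (D.c P) (D.γ P) f x α
  have hrep : ∀ (ξ : Q) (P : HeightOneSpectrum R), P ∈ D.T → ∀ x : Ty, TyX ξ P x →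
      ∀ (u : (AdjoinRoot (fk K f))ˣ) (α : K[X]), (QuotientGroup.mk u : Q) = ξ →
      AdjoinRoot.mk (fk K f) α = (u : AdjoinRoot (fk K f)) →
      TyK P.asIdeal (ϖ P) (D.c P) (D.γ P) f x α := by
    rintro ξ P hP x ⟨u', α', hu', hα', hc', hn', ht'⟩ u α hu hα
    obtain ⟨s, hs, hd⟩ := rep_rel (hu'.trans hu.symm) hα' hα
    exact (hTA P hP).2.2.1 α' α s x hc' hn' hs hd ht'
  have hRcT : ∀ ξ ∈ RcG K D.T f, ∀ P ∈ D.T, ∃ x, TyX ξ P x := by
    rintro ξ ⟨u, α, hu, hα, hU⟩ P hP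
    obtain ⟨x, hx, -⟩ := (hTA P hP).1 α hU.1 hU.2.1
    exact ⟨x, u, α, hu, hα, hU.1, hU.2.1, hx⟩
  have huniq : ∀ (ξ : Q) (P : {P : HeightOneSpectrum R // P ∈ D.T}) (x y : Ty), TyX ξ P x →
      TyX ξ P y → x = y := by
    rintro ξ P x y hx ⟨u, α, hu, hα, hc, hn, ht⟩
    have hx' := hrep ξ P P.2 x hx u α hu hα
    exact ((hTA P P.2).1 α hc hn).unique hx' ht
  have htmul : ∀ (ξ ξ' : Q) (P : {P : HeightOneSpectrum R // P ∈ D.T}) (x y : Ty), TyX ξ P x →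
      TyX ξ' P y → TyX (ξ * ξ') P (x + y) := by
    rintro ξ ξ' P x y ⟨u, α, hu, hα, hc, hn, ht⟩ ⟨u', α', hu', hα', hc', hn', ht'⟩
    refine ⟨u * u', α * α', ?_, ?_, hc.mul_left hc', nsq_mul hn hn',
      (hTA P P.2).2.1 α α' x y hc hn hc' hn' ht ht'⟩
    · rw [QuotientGroup.mk_mul, hu, hu']
    · rw [Units.val_mul, map_mul, hα, hα']
  have hRmul : ∀ ξ ∈ RcG K D.T f, ∀ ξ' ∈ RcG K D.T f, ξ * ξ' ∈ RcG K D.T f := by
    rintro ξ ⟨u, α, hu, hα, hU⟩ ξ' ⟨u', α', hu', hα', hU'⟩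
    refine ⟨u * u', α * α', ?_, ?_, hU.1.mul_left hU'.1, nsq_mul hU.2.1 hU'.2.1,
      fun P hP => us_mul (hU.2.2 P hP) (hU'.2.2 P hP)⟩
    · rw [QuotientGroup.mk_mul, hu, hu']
    · rw [Units.val_mul, map_mul, hα, hα']
  have hRone : (1 : Q) ∈ RcG K D.T f :=
    ⟨1, 1, rfl, by simp, isCoprime_one_left, nsq_one, fun P _ => us_one⟩
  -- the type function
  have hex : ∀ ξ : Q, ∃ m : {P : HeightOneSpectrum R // P ∈ D.T} → Ty, ξ ∈ RcG K D.T f →
      ∀ P : {P : HeightOneSpectrum R // P ∈ D.T}, TyX ξ P (m P) := by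
    intro ξ
    by_cases hξ : ξ ∈ RcG K D.T f
    · have h3 : ∀ P : {P : HeightOneSpectrum R // P ∈ D.T}, ∃ x : Ty, TyX ξ P x :=
        fun P => hRcT ξ hξ P P.2
      obtain ⟨m, hm⟩ := Classical.skolem.mp h3
      exact ⟨m, fun _ => hm⟩
    · exact ⟨0, fun h => absurd h hξ⟩
  obtain ⟨θ, hθ⟩ : ∃ θ : Q → ({P : HeightOneSpectrum R // P ∈ D.T} → Ty), ∀ ξ,
      ξ ∈ RcG K D.T f → ∀ P : {P : HeightOneSpectrum R // P ∈ D.T}, TyX ξ P (θ ξ P) :=
    Classical.skolem.mp hex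
  have hθu : ∀ ξ ∈ RcG K D.T f, ∀ m : {P : HeightOneSpectrum R // P ∈ D.T} → Ty,
      (∀ P : {P : HeightOneSpectrum R // P ∈ D.T}, TyX ξ P (m P)) → θ ξ = m := by
    intro ξ hξ m hm
    funext P
    exact huniq ξ P _ _ (hθ ξ hξ P) (hm P)
  have hone : θ 1 = 0 := by
    refine hθu 1 hRone 0 fun P => ?_
    have h3 := hθ 1 hRone P
    have h4 := htmul 1 1 P _ _ h3 h3
    rw [add_ty, cls_sq] at h4
    exact h4
  have hmul : ∀ ξ ∈ RcG K D.T f, ∀ ξ' ∈ RcG K D.T f, θ (ξ * ξ') = θ ξ + θ ξ' := by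
    intro ξ hξ ξ' hξ'
    exact hθu _ (hRmul ξ hξ ξ' hξ') _ fun P => htmul ξ ξ' P _ _ (hθ ξ hξ P) (hθ ξ' hξ' P)
  -- a nontrivial class gives a pattern
  have hpat : ∀ ξ ∈ RcG K D.T f, ξ ≠ 1 → Pat K D ϖ (ex D.T (θ ξ)) f := by
    rintro ξ hξ hne
    obtain ⟨u, α, hu, hα, hU⟩ := hξ
    refine ⟨α, hU, ?_, ?_⟩
    · rintro ⟨s, hs⟩
      apply hne
      rw [← AdjoinRoot.mk_eq_mk, hα, map_pow] at hs
      have hunit : IsUnit (AdjoinRoot.mk (fk K f) s) := by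
        rw [← isUnit_pow_iff (two_ne_zero), ← hs]
        exact u.isUnit
      rw [← hu, QuotientGroup.eq_one_iff]
      refine ⟨hunit.unit, ?_⟩
      ext
      simp [hs]
    · intro P hP
      have e : ex D.T (θ ξ) P = θ ξ ⟨P, hP⟩ := by rw [ex, dif_pos hP]
      rw [e]
      exact hrep ξ P hP _ (hθ ξ ⟨u, α, hu, hα, hU⟩ ⟨P, hP⟩) u α hu hα
  have hinj : Set.InjOn θ (RcG K D.T f) := by
    intro ξ hξ ξ' hξ' heq
    have h3 : θ (ξ * ξ') = 0 := by
      rw [hmul ξ hξ ξ' hξ', heq]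
      funext P; exact add_ty _
    have h4 : ξ * ξ' = 1 := by
      by_contra hne
      have h5 := hpat _ (hRmul ξ hξ ξ' hξ') hne
      apply hPat
      have h6 : ex D.T (θ (ξ * ξ')) = fun _ => 0 := by
        funext P
        rw [h3, ex]
        split_ifs <;> rfl
      rw [h6] at h5
      exact h5
    rw [← inv_eq_self ξ']
    exact eq_inv_of_mul_eq_one_left h4
  -- the group
  let M : AddSubgroup ({P : HeightOneSpectrum R // P ∈ D.T} → Ty) :=
    { carrier := θ '' RcG K D.T f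
      zero_mem' := ⟨1, hRone, hone⟩
      add_mem' := by
        rintro _ _ ⟨ξ, hξ, rfl⟩ ⟨ξ', hξ', rfl⟩
        exact ⟨ξ * ξ', hRmul ξ hξ ξ' hξ', hmul ξ hξ ξ' hξ'⟩
      neg_mem' := by
        rintro _ ⟨ξ, hξ, rfl⟩
        exact ⟨ξ, hξ, by funext P; exact (neg_ty _).symm⟩ }
  have hsing : ∀ m ∈ M, PRL.qf m = 0 := by
    rintro _ ⟨ξ, hξ, rfl⟩
    obtain ⟨u, α, hu, hα, hU⟩ := hξ
    have h3 := hRec g D h hg hOk hRam f hf.1 ϖ hUni α (ex D.T (θ ξ)) hU ?_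
    · rw [← h3, PRL.qf, ← Finset.sum_coe_sort D.T]
      refine Finset.sum_congr rfl fun P _ => ?_
      have e : ex D.T (θ ξ) P = θ ξ P := by rw [ex, dif_pos P.2]
      rw [e]
    · intro P hP
      have e : ex D.T (θ ξ) P = θ ξ ⟨P, hP⟩ := by rw [ex, dif_pos hP]
      rw [e]
      exact hrep ξ P hP _ (hθ ξ ⟨u, α, hu, hα, hU⟩ ⟨P, hP⟩) u α hu hα
  have hfinRc : (RcG K D.T f).Finite :=
    Set.Finite.of_finite_image (f := θ) (Set.toFinite _) hinj
  have hcard : Nat.card M = (RcG K D.T f).ncard := by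
    have h3 : Nat.card M = (θ '' RcG K D.T f).ncard := rfl
    rw [h3, hinj.ncard_image]
  have hle := card_le_of_sing M hsing
  have hge := hCg D h hOk f hf hfinRc
  have hkc : Fintype.card {P : HeightOneSpectrum R // P ∈ D.T} = D.T.card :=
    Fintype.card_coe D.T
  have hMcard : Nat.card M = 2 ^ D.T.card := by
    rw [hkc] at hle
    rw [← hcard] at hge
    exact le_antisymm hle hge
  refine ⟨M, hsing, hMcard, ?_, ?_⟩
  · rintro _ ⟨ξ, hξ, rfl⟩ hne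
    refine hpat ξ hξ ?_
    rintro rfl
    exact hne hone
  · intro S hS d hd
    obtain ⟨e, he⟩ := hSGK R K f d hfA.1 hd.1
    set A : Set Q := {ξ | ξ ∈ RcG K D.T f ∧ ∀ P : {P : HeightOneSpectrum R // P ∈ D.T},
      ((P : HeightOneSpectrum R) ∈ S → (θ ξ P).2 = 0) ∧
        ((P : HeightOneSpectrum R) ∉ S → (θ ξ P).1 = 0)} with hA
    have hAR : A ⊆ RcG K D.T f := fun ξ hξ => hξ.1
    have hSelA : SelG (fk K (f.scaleRoots d)) = e '' A := by
      ext ζ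
      constructor
      · intro hζ
        refine ⟨e.symm ζ, ?_, e.apply_symm_apply ζ⟩
        obtain ⟨u, hu⟩ := QuotientGroup.mk_surjective (e.symm ζ)
        obtain ⟨α, hα⟩ := AdjoinRoot.mk_surjective (u : AdjoinRoot (fk K f))
        have h5 := (he u α hα).mp (by rw [hu, e.apply_symm_apply]; exact hζ)
        have hc : IsCoprime α (fk K f) := cop_of_unit (by rw [hα]; exact u.isUnit)
        obtain ⟨hU, hty⟩ := (hSELK R K O π hGR hOnly g D h hg hOk f hf ϖ hUni S hS d hd α hc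
          h5.1).mp h5.2
        have hR : e.symm ζ ∈ RcG K D.T f := ⟨u, α, hu, hα, hU⟩
        refine ⟨hR, fun P => ?_⟩
        obtain ⟨x, hx, hx1, hx2⟩ := hty P P.2
        have e1 : θ (e.symm ζ) P = x :=
          huniq _ P _ _ (hθ _ hR P) ⟨u, α, hu, hα, hc, h5.1, hx⟩
        rw [e1]
        exact ⟨hx1, hx2⟩
      · rintro ⟨ξ, ⟨hR, hξ⟩, rfl⟩
        obtain ⟨u, α, hu, hα, hU⟩ := hR
        have hR : ξ ∈ RcG K D.T f := ⟨u, α, hu, hα, hU⟩
        rw [← hu]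
        refine (he u α hα).mpr ⟨hU.2.1, ?_⟩
        refine (hSELK R K O π hGR hOnly g D h hg hOk f hf ϖ hUni S hS d hd α hU.1
          hU.2.1).mpr ⟨hU, fun P hP => ?_⟩
        exact ⟨θ ξ ⟨P, hP⟩, hrep ξ P hP _ (hθ ξ hR ⟨P, hP⟩) u α hu hα, (hξ ⟨P, hP⟩).1,
          (hξ ⟨P, hP⟩).2⟩
    have hAfin : A.Finite := hfinRc.subset hAR
    have himg : {m | m ∈ M ∧ m ∈ PRL.LS (sb D.T S)} = θ '' A := by
      ext m
      constructor
      · rintro ⟨⟨ξ, hξ, rfl⟩, hLS⟩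
        refine ⟨ξ, ⟨hξ, fun P => ⟨?_, ?_⟩⟩, rfl⟩
        · intro hPS
          have := hLS P
          rw [if_pos (by rw [sb, Finset.mem_filter]; exact ⟨Finset.mem_univ _, hPS⟩)] at this
          exact this
        · intro hPS
          have := hLS P
          rw [if_neg (by rw [sb, Finset.mem_filter]; exact fun h => hPS h.2)] at this
          exact this
      · rintro ⟨ξ, hξ, rfl⟩
        refine ⟨⟨ξ, hξ.1, rfl⟩, fun P => ?_⟩
        by_cases hPS : (P : HeightOneSpectrum R) ∈ S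
        · rw [if_pos (by rw [sb, Finset.mem_filter]; exact ⟨Finset.mem_univ _, hPS⟩)]
          exact (hξ.2 P).1 hPS
        · rw [if_neg (by rw [sb, Finset.mem_filter]; exact fun h => hPS h.2)]
          exact (hξ.2 P).2 hPS
    refine ⟨?_, ?_⟩
    · rw [hSelA]; exact hAfin.image _
    · rw [hSelA, Set.ncard_image_of_injective _ e.injective, himg,
        (hinj.mono hAR).ncard_image]

end Pool.PRK
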